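import Mathlib
import Pool.Agent.W245.PB.RealQ

/-!
# Four exponentials for rational numbers: products over blocks

There are universal bounds `0 = R_0 < R_1 < ⋯` (depending only on `m`) with the following property.
Let `q_0, q_1, …` be any multiplicatively independent positive rational numbers (for instance
distinct primes), and `V` any rational space of real numbers of dimension at most `m`.  Then there
are sets `S_i` of integers in `[R_i, R_{i+1})` such that, with `n_i = ∏_{j ∈ S_i} q_j`, the numbers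
`log n_i` are `ℚ`-linearly independent modulo `V`, and every `2 × 2` matrix with entries in
`V + ℚ log n_0 + ℚ log n_1 + ⋯`, not all in `V`, with `ℚ`-independent rows and `ℚ`-independent
columns, has nonzero determinant.
-/

namespace Pool.Agent.Results.MP_bbc1fa_nt.BlockProducts

open Module

/-- **Main result.** -/
theorem result (m : ℕ) : ∃ R : ℕ → ℕ, StrictMono R ∧ R 0 = 0 ∧
    ∀ q : ℕ → ℚ, (∀ i, 0 < q i) → LinearIndependent ℚ (fun i => Real.log (q i)) →
    ∀ V : Submodule ℚ ℝ, Module.Finite ℚ V → finrank ℚ V ≤ m →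
    ∃ S : ℕ → Finset ℕ, (∀ i, S i ⊆ Finset.Ico (R i) (R (i + 1))) ∧
      (∀ i, Real.log (∏ j ∈ S i, (q j : ℝ)) ∉
        V ⊔ Submodule.span ℚ ((fun i => Real.log (∏ j ∈ S i, (q j : ℝ))) '' Set.Iio i)) ∧
      ∀ M : Matrix (Fin 2) (Fin 2) ℝ,
        (∀ i j, M i j ∈
          V ⊔ Submodule.span ℚ (Set.range fun i => Real.log (∏ j ∈ S i, (q j : ℝ)))) →
        (∃ i j, M i j ∉ V) →
        LinearIndependent ℚ (fun i : Fin 2 => fun j : Fin 2 => M i j) →
        LinearIndependent ℚ (fun j : Fin 2 => fun i : Fin 2 => M i j) → M.det ≠ 0 := by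
  obtain ⟨R, hR, hR0, h⟩ := Pool.Agent.W245.PB.block_real m
  refine ⟨R, hR, hR0, fun q hq hli V hVf hVm => ?_⟩
  have hq' : ∀ i, (0 : ℝ) < q i := fun i => by exact_mod_cast hq i
  obtain ⟨S, hS, h1, h2⟩ := h (fun i => Real.log (q i)) (fun i => by
    rw [Real.exp_log (hq' i)]
    exact isAlgebraic_algebraMap (q i)) hli V hVf hVm
  have e1 : ∀ i, Real.log (∏ j ∈ S i, (q j : ℝ)) = ∑ j ∈ S i, Real.log (q j) := fun i =>
    Real.log_prod (fun j _ => (hq' j).ne')
  refine ⟨S, hS, fun i => ?_, fun M hM hV hrow hcol => ?_⟩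
  · simp only [e1]
    exact h1 i
  · simp only [e1] at hM
    exact h2.det_ne_zero M hM hrow hcol hV

end Pool.Agent.Results.MP_bbc1fa_nt.BlockProducts
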